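import Pool.Agent.FUR.Stmts

set_option autoImplicit false

/-!
# FUR: row ONE (helper23)
-/

namespace Pool.Agent.FUR.H23

open Finset Pool.Agent.FUR

theorem put_ev {N : ℕ} (F : Fm (Fin N)) (v : Fin N) (b : Bool) (x : Fin N → Bool) :
    (F.put v b).ev x = F.ev (Function.update x v b) := by
  induction F with
  | cst c => rfl
  | lit w c =>
    simp only [Fm.put]
    by_cases h : w = v
    · subst h; simp [Fm.ev]
    · rw [if_neg h]; simp [Fm.ev, Function.update_of_ne h]
  | and F G hF hG => simp only [Fm.put, Fm.ev, hF, hG]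
  | or F G hF hG => simp only [Fm.put, Fm.ev, hF, hG]

theorem put_lv {N : ℕ} (F : Fm (Fin N)) (v : Fin N) (b : Bool) :
    (F.put v b).lv + F.cnt v = F.lv := by
  induction F with
  | cst c => rfl
  | lit w c =>
    simp only [Fm.put, Fm.cnt]
    by_cases h : w = v
    · rw [if_pos h, if_pos h]; rfl
    · rw [if_neg h, if_neg h]; rfl
  | and F G hF hG => simp only [Fm.put, Fm.lv, Fm.cnt]; omega
  | or F G hF hG => simp only [Fm.put, Fm.lv, Fm.cnt]; omega

theorem sum_cnt {N : ℕ} (F : Fm (Fin N)) : ∑ v, F.cnt v = F.lv := by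
  induction F with
  | cst c => simp [Fm.cnt, Fm.lv]
  | lit w c => simp [Fm.cnt, Fm.lv]
  | and F G hF hG => simp only [Fm.cnt, Fm.lv, Finset.sum_add_distrib, hF, hG]
  | or F G hF hG => simp only [Fm.cnt, Fm.lv, Finset.sum_add_distrib, hF, hG]

theorem one (hN : NRMStmt) (hO : ONBStmt) : ONEStmt := by
  intro N f ℓ hℓ hf hmin
  obtain ⟨F, hFe, hFl⟩ := hf
  obtain ⟨F', he, hl, hred, hc⟩ := hN N F
  have he' : ∀ x, F'.ev x = f x := fun x => (he x).trans (hFe x)
  have hlv : F'.lv = ℓ := le_antisymm (hl.trans hFl) (hmin _ ⟨F', he', le_refl _⟩)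
  have hnoc : F'.noc := by
    rcases hc with ⟨b, hb⟩ | h
    · rw [hb] at hlv
      simp only [Fm.lv] at hlv
      omega
    · exact h
  have hput : ∀ v b, LC (rst f v b) (ℓ - F'.cnt v) := by
    intro v b
    refine ⟨F'.put v b, fun x => ?_, ?_⟩
    · rw [put_ev, he']; rfl
    · have := put_lv F' v b
      omega
  refine ⟨fun v => F'.cnt v, ?_, ?_, hput, ?_⟩
  · rw [sum_cnt, hlv]
  · intro v hv
    have h1 : rst f v false = f := by
      funext x
      unfold rst
      by_cases hx : x v = false
      · congr 1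
        rw [← hx, Function.update_eq_self]
      · have hx' : x v = true := by simpa using hx
        have h2 : f (fl x v) = f x := by
          by_contra h
          exact hv ⟨x, h⟩
        unfold fl at h2
        rw [hx'] at h2
        exact h2
    have h2 := hput v false
    rw [h1] at h2
    have h3 := hmin _ h2
    show F'.cnt v = 0
    omega
  · intro h2 v
    obtain ⟨D, hD, hD3⟩ := hO N F' hred hnoc v
    refine ⟨D, fun b => ?_, hD3 (by omega)⟩
    obtain ⟨h3, h4, G, hG, hGl⟩ := hD b
    refine ⟨h3, by omega, G, fun x => ?_, by omega⟩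
    rw [hG, he']; rfl

end Pool.Agent.FUR.H23
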