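import Pool.Agent.FUR.Stmts

set_option autoImplicit false

/-!
# FUR: row PAR (helper23)
-/

namespace Pool.Agent.FUR.H23

open Finset Pool.Agent.FUR

theorem px_update (σ : ℕ → Bool) (l : ℕ) (i : ℕ) :
    px (Function.update σ l (!(σ l))) i = if l < i then !(px σ i) else px σ i := by
  induction i with
  | zero => simp [px]
  | succ i ih =>
    simp only [px]
    rw [ih]
    by_cases h1 : l = i
    · subst h1
      simp
    · rw [Function.update_of_ne (Ne.symm h1)]
      by_cases h2 : l < i
      · rw [if_pos h2, if_pos (by omega)]
        cases px σ i <;> cases σ i <;> rfl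
      · rw [if_neg h2, if_neg (by omega)]

theorem asg_fl {n : ℕ} (x : Fin n → Bool) (v : Fin n) :
    asg (fl x v) false = Function.update (asg x false) v.1 (!(asg x false v.1)) := by
  funext w
  by_cases h : w = v.1
  · subst h
    simp [asg, fl]
  · rw [Function.update_of_ne h]
    unfold asg fl
    by_cases hw : w < n
    · rw [dif_pos hw, dif_pos hw, Function.update_of_ne]
      intro h'
      exact h (by rw [← h'])
    · rw [dif_neg hw, dif_neg hw]

theorem parStmt : PARStmt := by
  intro n x v
  unfold par
  rw [asg_fl, px_update, if_pos v.2]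

end Pool.Agent.FUR.H23
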